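import Mathlib
import Pool.Agent.Work.MP_5a4e9f_an.Defs
import Pool.Agent.Work.MP_5a4e9f_an.Assemble

/-!
# A discrete group of circle diffeomorphisms which is not locally discrete

Question Q1 of MP_5a4e9f_an has a positive answer, already for `k = l = 1`: there are two `C^1`
diffeomorphisms of `ℝ/ℤ` generating a non-elementary group (with minimal action) which is discrete
in the `C^1` topology but not locally discrete in the `C^1` topology.

Sketch. Start with the free group generated by a rotation `t` of infinite order and a hyperbolic
projective map `a`; `z = a⁻¹ t⁻ᵐ a tᵐ` tends to the identity when `m α` tends to `0` modulo one.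
Conjugate by a homeomorphism with singular derivative `exp (ψ₁ + ψ₂ + ...)`, where the continuous
bumps `ψ_i` with values in `[0,1]` are such that the sum of `ψ_i ∘ g - ψ_i` converges uniformly for
all `g`, that `ψ_i ∘ z_i - ψ_i` is small off a small ball, but that for each new `g` the sum of
these coboundaries oscillates by at least `3/4`. This works because every short word with value
`g` has to use the letter `z_i` at one and the same place, and this place can be put where the
letter `z_i` is expensive.
-/

namespace Pool.Agent.Results.MP_5a4e9f_an.DiscreteNotLocallyDiscrete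

open Pool.Agent.Work.MP_5a4e9f_an

theorem result : ∃ f g : Equiv.Perm UnitAddCircle,
    (∀ h ∈ Subgroup.closure {f, g}, IsDiffeo 1 h) ∧
    NonElementary (Subgroup.closure {f, g}) ∧
    IsLimitSet (Subgroup.closure {f, g}) Set.univ ∧
    IsDiscrete 1 (Subgroup.closure {f, g}) ∧
    ¬ IsLocallyDiscrete 1 (Subgroup.closure {f, g}) ∧
    ∀ I : Set UnitAddCircle, IsClosedInterval I →
      ∃ u : ℕ → Equiv.Perm UnitAddCircle, (∀ n, u n ∈ Subgroup.closure {f, g}) ∧
        ConvergesToId 1 u I ∧ ∀ n, ∃ x ∈ I, u n x ≠ x :=
  main

end Pool.Agent.Results.MP_5a4e9f_an.DiscreteNotLocallyDiscrete
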